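import Pool.Agent.Q306.PL.Main

/-!
# Small maximal chains in infinite partition lattices

`Setoid α` with its order is the partition lattice of `α`.
-/

open Cardinal

universe u

/-- (1) For an infinite set `α` and a cardinal `lam`, the partition lattice of `α` has a maximal
chain with at most `lam` elements iff some linear order with at most `lam` elements has at least
`#α` initial segments.
(2) For every regular cardinal `κ` and every set `α` of size `κ`, the partition lattice of `α` has
a maximal chain `C` with `#C < cf κ` iff `κ ≤ 2 ^ μ` for some `μ < κ`.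
(3) For every infinite cardinal `μ` and every set `α` of size `κ = μ⁺`, the partition lattice of `α`
has a maximal chain `C` with `#C < cf κ`. -/
theorem Pool.Agent.Results.MP_98dabe_lc.SmallChains.result :
    (∀ (α : Type u) [Infinite α] (lam : Cardinal.{u}),
      (∃ C : Set (Setoid α), IsMaxChain (· ≤ ·) C ∧ #C ≤ lam) ↔
        ∃ (L : Type u) (_ : LinearOrder L), #L ≤ lam ∧ #α ≤ #(LowerSet L)) ∧
    (∀ (κ : Cardinal.{u}), κ.IsRegular → ∀ (α : Type u), #α = κ →
      ((∃ C : Set (Setoid α), IsMaxChain (· ≤ ·) C ∧ #C < κ.ord.cof) ↔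
        ∃ μ < κ, κ ≤ 2 ^ μ)) ∧
    (∀ (μ : Cardinal.{u}), ℵ₀ ≤ μ → ∀ (α : Type u), #α = Order.succ μ →
      ∃ C : Set (Setoid α), IsMaxChain (· ≤ ·) C ∧ #C < (Order.succ μ).ord.cof) :=
  ⟨fun α _ lam => Pool.Agent.Q306.PL.part1 α lam,
    fun κ hκ α hα => Pool.Agent.Q306.PL.part2 κ hκ α hα,
    fun μ hμ α hα => (Pool.Agent.Q306.PL.part2 _ (isRegular_succ hμ) α hα).2
      ⟨μ, Order.lt_succ μ, Order.succ_le_of_lt (cantor μ)⟩⟩
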